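import Mathlib

/-! In every dimension and on every alphabet with at least two symbols there is a uniformly ergodic
probabilistic cellular automaton which is not exponentially ergodic. -/

open MeasureTheory Set Filter Topology

namespace Pool.Agent.Results.MP_37af32_pr.EveryAlphabet

/-- configurations -/
abbrev Config (d : ℕ) (A : Type) : Type := (Fin d → ℤ) → A

/-- a probabilistic cellular automaton: a finite neighbourhood and a local rule -/
structure PCA (d : ℕ) (A : Type) where
  /-- the neighbourhood -/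
  nbhd : Finset (Fin d → ℤ)
  /-- the local rule -/
  rule : (nbhd → A) → PMF A

section
variable {d : ℕ} {A : Type} [MeasurableSpace A]

/-- the law of the configuration that follows `x`: independent symbols -/
noncomputable def PCA.next (P : PCA d A) (x : Config d A) : Measure (Config d A) :=
  Measure.infinitePi fun i => (P.rule fun n => x (i + (n : Fin d → ℤ))).toMeasure

/-- the Markov operator -/
noncomputable def PCA.step (P : PCA d A) (μ : Measure (Config d A)) : Measure (Config d A) :=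
  μ.bind P.next

/-- cylinder sets -/
def cyl (D : Finset (Fin d → ℤ)) (w : Config d A) : Set (Config d A) := {x | ∀ i ∈ D, x i = w i}

end

section core
variable {d : ℕ} {A : Type} [Fintype A] [MeasurableSpace A] [DiscreteMeasurableSpace A]
  (e : Fin d → ℤ) (a0 a1 : A)

/-- there is a particle at `i`: a one that is followed by a symbol other than one -/
def g (x : Config d A) (i : Fin d → ℤ) : Prop := x i = a1 ∧ x (i + e) ≠ a1

open scoped Classical in
/-- one move with the coins `p.2` -/
noncomputable def T (p : Config d A × ((Fin d → ℤ) → Bool)) (i : Fin d → ℤ) : A :=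
  if (p.1 i = a1 ∧ p.1 (i + e) ≠ a1) ∨ (p.1 (i + -e) = a1 ∧ p.1 i ≠ a1 ∧ p.2 i = true) then a1
    else a0

/-- fair coins -/
noncomputable def C (d : ℕ) : Measure ((Fin d → ℤ) → Bool) :=
  Measure.infinitePi fun _ => (PMF.uniformOfFintype Bool).toMeasure

instance : IsProbabilityMeasure (C d) := by unfold C; infer_instance

lemma T_meas : Measurable (T e a0 a1 (d := d)) := by
  classical
  refine measurable_pi_lambda _ fun i => ?_
  exact (measurable_of_finite fun p : (A × A) × (A × Bool) =>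
    if (p.1.1 = a1 ∧ p.1.2 ≠ a1) ∨ (p.2.1 = a1 ∧ p.1.1 ≠ a1 ∧ p.2.2 = true) then a1 else a0).comp
    (f := fun x : Config d A × ((Fin d → ℤ) → Bool) => ((x.1 i, x.1 (i + e)), (x.1 (i + -e), x.2 i)))
    (by fun_prop)

/-- the operator on probability measures -/
noncomputable def Φ (μ : ProbabilityMeasure (Config d A)) : ProbabilityMeasure (Config d A) :=
  ⟨((μ : Measure (Config d A)).prod (C d)).map (T e a0 a1),
    Measure.isProbabilityMeasure_map (T_meas e a0 a1).aemeasurable⟩

lemma g_meas (i : Fin d → ℤ) : MeasurableSet {x : Config d A | g e a1 x i} := by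
  have h : {x : Config d A | g e a1 x i} =
      (fun x : Config d A => (x i, x (i + e))) ⁻¹' {p | p.1 = a1 ∧ p.2 ≠ a1} := by
    ext x; simp [g]
  rw [h]
  exact (by fun_prop : Measurable fun x : Config d A => (x i, x (i + e))) (.of_discrete)

/-- a particle in the segment `[l, r)` of the line through `b` -/
def S (b : Fin d → ℤ) (l r : ℤ) : Set (Config d A) :=
  {x | ∃ j : ℤ, l ≤ j ∧ j < r ∧ g e a1 x (b + j • e)}

lemma S_meas (b : Fin d → ℤ) (l r : ℤ) : MeasurableSet (S e a1 b l r) := by
  have h : S e a1 b l r = ⋃ j ∈ {j : ℤ | l ≤ j ∧ j < r}, {x | g e a1 x (b + j • e)} := by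
    ext x; simp [S, and_assoc]
  rw [h]
  exact MeasurableSet.biUnion (to_countable _) fun j _ => g_meas e a1 _

lemma shift (b : Fin d → ℤ) (j : ℤ) : b + j • e + e = b + (j + 1) • e ∧
    b + j • e + -e = b + (j - 1) • e ∧ b + (j + 1) • e + -e = b + j • e ∧
      b + (j - 1) • e + e = b + j • e := by
  refine ⟨?_, ?_, ?_, ?_⟩ <;> module

variable {e a0 a1}

omit [Fintype A] [MeasurableSpace A] [DiscreteMeasurableSpace A] in
lemma T_eq (h01 : a0 ≠ a1) (p : Config d A × ((Fin d → ℤ) → Bool)) (i : Fin d → ℤ) :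
    T e a0 a1 p i = a1 ↔ (g e a1 p.1 i ∨ (p.1 (i + -e) = a1 ∧ p.1 i ≠ a1 ∧ p.2 i = true)) := by
  unfold T g
  split_ifs with h
  · simpa using h
  · simp [h01, h]

omit [Fintype A] [MeasurableSpace A] [DiscreteMeasurableSpace A] in
lemma incl (h01 : a0 ≠ a1) (b : Fin d → ℤ) (l r : ℤ) (c : (Fin d → ℤ) → Bool) :
    (fun x => (x, c)) ⁻¹' (T e a0 a1 ⁻¹' S e a1 b l r) ⊆
      S e a1 b (l - (c (b + l • e)).toInt) (r - (c (b + r • e)).toInt) := by
  rintro x ⟨j, h3, h4, h5⟩
  have h2 : ∀ i, (c i = true ∧ (c i).toInt = 1) ∨ (c i = false ∧ (c i).toInt = 0) := fun i => by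
    cases c i <;> simp
  obtain ⟨s1, s2, s3, s4⟩ := shift e b j
  simp only [g, T_eq h01, s1, s2, s3, ne_eq] at h5
  obtain ⟨h5, h6⟩ := h5
  rcases h5 with h5 | h5
  · refine ⟨j, by rcases h2 (b + l • e) with h | h <;> omega, ?_, ?_⟩
    · by_cases h7 : j + 1 = r
      · subst h7
        rcases h2 (b + (j + 1) • e) with h | h
        · exact absurd (Or.inr ⟨h5.1, h5.2, h.1⟩) h6
        · omega
      · rcases h2 (b + r • e) with h | h <;> omega
    · simpa only [g, s1, ne_eq] using h5
  · refine ⟨j - 1, ?_, by rcases h2 (b + r • e) with h | h <;> omega, ?_⟩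
    · by_cases h7 : j = l
      · subst h7
        rcases h2 (b + j • e) with h | h
        · omega
        · rw [h.1] at h5; simp at h5
      · rcases h2 (b + l • e) with h | h <;> omega
    · simp only [g, s4, ne_eq]
      exact ⟨h5.1, h5.2.1⟩

omit [Fintype A] [MeasurableSpace A] [DiscreteMeasurableSpace A] in
lemma coins {i j : Fin d → ℤ} (hij : i ≠ j) (y : Bool × Bool) :
    ((C d).map fun c : (Fin d → ℤ) → Bool => (c i, c j)) {y} = 4⁻¹ := by
  have hp : Measurable fun c : (Fin d → ℤ) → Bool => (c i, c j) := by fun_prop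
  rw [Measure.map_apply hp (.singleton _), show (fun c : (Fin d → ℤ) → Bool => (c i, c j)) ⁻¹'
    {y} = Set.pi ({i, j} : Finset (Fin d → ℤ)) fun k => {if k = i then y.1 else y.2} by
      ext c; simp [hij.symm, Prod.ext_iff], C, Measure.infinitePi_pi _ fun _ _ => .singleton _,
    Finset.prod_pair hij, show (4 : ENNReal) = 2 * 2 by norm_num,
    ENNReal.mul_inv (by simp) (by simp)]
  simp [PMF.uniformOfFintype_apply]

lemma key (he : e ≠ 0) (h01 : a0 ≠ a1) (μ : ProbabilityMeasure (Config d A)) (b : Fin d → ℤ)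
    {l r : ℤ} (h : l < r) :
    (Φ e a0 a1 μ : Measure (Config d A)).real (S e a1 b l r) ≤
      ((μ : Measure (Config d A)).real (S e a1 b (l - 1) (r - 1)) +
      (μ : Measure (Config d A)).real (S e a1 b (l - 1) r) +
      ((μ : Measure (Config d A)).real (S e a1 b l (r - 1)) +
        (μ : Measure (Config d A)).real (S e a1 b l r))) / 4 := by
  have hlr : b + l • e ≠ b + r • e := fun hh => by
    have h1 := smul_left_injective ℤ he (add_left_cancel hh)
    omega
  have h3 := coins hlr
  have hp : Measurable fun c : (Fin d → ℤ) → Bool => (c (b + l • e), c (b + r • e)) := by fun_prop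
  have h4 := lintegral_map (μ := C d) (measurable_of_finite fun y : Bool × Bool =>
    (μ : Measure (Config d A)) (S e a1 b (l - y.1.toInt) (r - y.2.toInt))) hp
  have h5 : (Φ e a0 a1 μ : Measure (Config d A)) (S e a1 b l r) ≤
      ∫⁻ y, (μ : Measure (Config d A)) (S e a1 b (l - y.1.toInt) (r - y.2.toInt))
        ∂((C d).map fun c : (Fin d → ℤ) → Bool => (c (b + l • e), c (b + r • e))) := by
    rw [h4, Φ, ProbabilityMeasure.coe_mk, Measure.map_apply (T_meas e a0 a1) (S_meas e a1 b l r),
      Measure.prod_apply_symm ((T_meas e a0 a1) (S_meas e a1 b l r))]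
    exact lintegral_mono fun c => measure_mono (incl h01 b l r c)
  rw [lintegral_fintype] at h5
  simp only [h3, ← Finset.sum_mul, Fintype.sum_prod_type, Fintype.sum_bool, Bool.toInt_true,
    Bool.toInt_false, sub_zero] at h5
  have h6 := ENNReal.toReal_mono (by finiteness) h5
  rw [ENNReal.toReal_mul, ENNReal.toReal_add (by finiteness) (by finiteness),
    ENNReal.toReal_add (by finiteness) (by finiteness),
    ENNReal.toReal_add (by finiteness) (by finiteness)] at h6
  simp only [ENNReal.toReal_inv, ENNReal.toReal_ofNat] at h6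
  simp only [Measure.real, div_eq_mul_inv]
  exact h6

/-- the bound on the probability of a particle in a segment of length `k` -/
noncomputable def U (t k : ℕ) : ℝ := (∑ j ∈ Finset.range k, ((2 * t + 1).choose (t + j + 1) : ℝ)) / 4 ^ t

lemma U_zero (k : ℕ) : U 0 (k + 1) = 1 := by
  unfold U
  rw [Finset.sum_range_succ']
  rw [Finset.sum_eq_zero fun j _ => by rw [Nat.choose_eq_zero_of_lt (by omega)]; simp]
  simp

lemma U_succ (t k : ℕ) : U (t + 1) (k + 1) = (U t (k + 1) + U t (k + 2) + (U t k + U t (k + 1))) / 4 := by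
  have hP : ∀ j : ℕ, ((2 * (t + 1) + 1).choose (t + 1 + j + 1) : ℝ) =
      ((2 * t + 1).choose (t + j)) + 2 * ((2 * t + 1).choose (t + j + 1)) +
        ((2 * t + 1).choose (t + j + 2)) := fun j => by
    rw [show 2 * (t + 1) + 1 = (2 * t + 1 + 1) + 1 by ring,
      show t + 1 + j + 1 = (t + j + 1) + 1 by ring, Nat.choose_succ_succ' (2 * t + 1 + 1) (t + j + 1),
      Nat.choose_succ_succ' (2 * t + 1) (t + j), Nat.choose_succ_succ' (2 * t + 1) (t + j + 1)]
    push_cast
    ring
  have h1 : ∑ j ∈ Finset.range (k + 1), ((2 * (t + 1) + 1).choose (t + 1 + j + 1) : ℝ) =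
      (∑ j ∈ Finset.range (k + 1), ((2 * t + 1).choose (t + j) : ℝ)) +
      2 * (∑ j ∈ Finset.range (k + 1), ((2 * t + 1).choose (t + j + 1) : ℝ)) +
      (∑ j ∈ Finset.range (k + 1), ((2 * t + 1).choose (t + j + 2) : ℝ)) := by
    rw [Finset.mul_sum, ← Finset.sum_add_distrib, ← Finset.sum_add_distrib]
    exact Finset.sum_congr rfl fun j _ => hP j
  have h2 : ∑ j ∈ Finset.range (k + 1), ((2 * t + 1).choose (t + j) : ℝ) =
      (∑ j ∈ Finset.range k, ((2 * t + 1).choose (t + j + 1) : ℝ)) + (2 * t + 1).choose (t + 1) := by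
    rw [Finset.sum_range_succ']
    congr 1
    · rw [add_zero, Nat.choose_symm_half]
  have h3 : ∑ j ∈ Finset.range (k + 2), ((2 * t + 1).choose (t + j + 1) : ℝ) =
      (∑ j ∈ Finset.range (k + 1), ((2 * t + 1).choose (t + j + 2) : ℝ)) +
        (2 * t + 1).choose (t + 1) := by
    rw [Finset.sum_range_succ']
    congr 1
  unfold U
  rw [h1, h2, h3, pow_succ]
  field_simp
  ring

omit [Fintype A] [MeasurableSpace A] [DiscreteMeasurableSpace A] in
lemma S_self (b : Fin d → ℤ) (l : ℤ) : S (A := A) e a1 b l (l + (0 : ℕ)) = ∅ :=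
  eq_empty_of_forall_notMem fun _ ⟨_, h1, h2, _⟩ => by omega

lemma upper (he : e ≠ 0) (h01 : a0 ≠ a1) (μ : ProbabilityMeasure (Config d A)) (t k : ℕ)
    (b : Fin d → ℤ) (l : ℤ) :
    ((Φ e a0 a1)^[t] μ : Measure (Config d A)).real (S e a1 b l (l + k)) ≤ U t k := by
  induction t generalizing k l with
  | zero =>
    rcases k with _ | k
    · rw [S_self]; simp [U]
    · rw [U_zero]; exact measureReal_le_one
  | succ t ih =>
    rcases k with _ | k
    · rw [S_self]; simp [U]
    · rw [Function.iterate_succ_apply', U_succ]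
      refine (key he h01 _ b (by omega)).trans ?_
      have h1 := ih (k + 1) (l - 1)
      have h2 := ih (k + 2) (l - 1)
      have h3 := ih k l
      have h4 := ih (k + 1) l
      rw [show l - 1 + ((k + 1 : ℕ) : ℤ) = l + ((k + 1 : ℕ) : ℤ) - 1 by omega] at h1
      rw [show l - 1 + ((k + 2 : ℕ) : ℤ) = l + ((k + 1 : ℕ) : ℤ) by omega] at h2
      rw [show l + (k : ℤ) = l + ((k + 1 : ℕ) : ℤ) - 1 by omega] at h3
      linarith

lemma close (he : e ≠ 0) (h01 : a0 ≠ a1) (μ : ProbabilityMeasure (Config d A)) (t : ℕ)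
    (D : Finset (Fin d → ℤ)) (w : Config d A) :
    |((Φ e a0 a1)^[t + 1] μ : Measure (Config d A)).real (cyl D w) -
      (Measure.dirac (fun _ => a0) : Measure (Config d A)).real (cyl D w)| ≤ D.card * U t 2 := by
  have hm : MeasurableSet (cyl D w) := by
    have : cyl D w = ⋂ i ∈ D, (fun x : Config d A => x i) ⁻¹' {w i} := by ext x; simp [cyl]
    rw [this]
    exact Finset.measurableSet_biInter _ fun i _ => measurable_pi_apply i (.of_discrete)
  rw [Function.iterate_succ_apply']
  generalize hν : (Φ e a0 a1)^[t] μ = ν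
  have hS : ∀ i, (ν : Measure (Config d A)).real (S e a1 i (-1) 1) ≤ U t 2 := fun i => by
    have := upper he h01 μ t 2 i (-1)
    rw [hν] at this
    simpa using this
  have hB : ((ν : Measure (Config d A)).prod (C d)).real
      (⋃ i ∈ D, S e a1 i (-1) 1 ×ˢ (univ : Set ((Fin d → ℤ) → Bool))) ≤ D.card * U t 2 := by
    refine (measureReal_biUnion_finset_le _ _).trans ?_
    rw [← nsmul_eq_mul]
    refine Finset.sum_le_card_nsmul _ _ _ fun i _ => ?_
    rw [measureReal_prod_prod, probReal_univ, mul_one]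
    exact hS i
  have hT : ∀ p, p ∉ (⋃ i ∈ D, S e a1 i (-1) 1 ×ˢ (univ : Set ((Fin d → ℤ) → Bool))) →
      ∀ i ∈ D, T e a0 a1 p i = a0 := fun p hp i hi => by
    by_contra h
    have h1 : T e a0 a1 p i = a1 := by
      unfold T at h ⊢
      split_ifs at h ⊢ with h2
      · rfl
      · exact absurd rfl h
    rw [T_eq h01] at h1
    refine hp (mem_biUnion hi ⟨?_, mem_univ _⟩)
    rcases h1 with h1 | h1
    · exact ⟨0, by omega, by omega, by simpa using h1⟩
    · refine ⟨-1, by omega, by omega, ?_⟩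
      rw [show i + (-1 : ℤ) • e = i + -e by module]
      refine ⟨h1.1, ?_⟩
      rw [neg_add_cancel_right]
      exact h1.2.1
  rw [Φ, ProbabilityMeasure.coe_mk, map_measureReal_apply (T_meas e a0 a1) hm]
  simp only [Measure.real, Measure.dirac_apply' _ hm]
  by_cases h : ∀ i ∈ D, a0 = w i
  · rw [indicator_of_mem (by exact h), Pi.one_apply, ENNReal.toReal_one, abs_sub_comm,
      ← Measure.real, ← probReal_compl_eq_one_sub ((T_meas e a0 a1) hm),
      abs_of_nonneg measureReal_nonneg]
    refine (measureReal_mono (fun p hp => ?_) (measure_ne_top _ _)).trans hB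
    by_contra h2
    exact hp fun i hi => (hT p h2 i hi).trans (h i hi)
  · rw [indicator_of_notMem (by exact h), ENNReal.toReal_zero, sub_zero,
      abs_of_nonneg ENNReal.toReal_nonneg]
    refine (measureReal_mono (fun p hp => ?_) (measure_ne_top _ _)).trans hB
    by_contra h2
    exact h fun i hi => (hT p h2 i hi).symm.trans (hp i hi)

variable (e a1) in
/-- exactly one particle, at `w` -/
def Q (w : Fin d → ℤ) : Set (Config d A) := {x | ∀ i, g e a1 x i ↔ i = w}

lemma Q_meas (w : Fin d → ℤ) : MeasurableSet (Q (A := A) e a1 w) := by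
  have : Q (A := A) e a1 w = ⋂ i, {x | g e a1 x i ↔ i = w} := by ext x; simp [Q]
  rw [this]
  refine MeasurableSet.iInter fun i => ?_
  by_cases h : i = w
  · simpa [h] using g_meas e a1 w
  · rw [show {x : Config d A | g e a1 x i ↔ i = w} = {x | g e a1 x i}ᶜ by ext x; simp [h]]
    exact (g_meas e a1 i).compl

lemma coin (i : Fin d → ℤ) (y : Bool) : (C d).real {c | c i = y} = 1 / 2 := by
  rw [Measure.real, show {c : (Fin d → ℤ) → Bool | c i = y} =
    Set.pi ({i} : Finset (Fin d → ℤ)) fun _ => {y} by ext c; simp, C,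
    Measure.infinitePi_pi _ fun _ _ => .singleton _]
  simp [PMF.uniformOfFintype_apply]

lemma low (he : e ≠ 0) (h01 : a0 ≠ a1) (μ : ProbabilityMeasure (Config d A)) (w : Fin d → ℤ) :
    ((μ : Measure (Config d A)).real (Q e a1 w) + (μ : Measure (Config d A)).real (Q e a1 (w - e)))
      / 2 ≤ (Φ e a0 a1 μ : Measure (Config d A)).real (Q e a1 w) := by
  have hne : w + e ≠ w := fun h => he (by simpa using h)
  have hne2 : w + e ≠ w - e := fun h => by
    have h1 : (2 : ℤ) • e = 0 := by
      have := sub_eq_zero.2 h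
      rw [← this]; module
    exact he ((smul_eq_zero.1 h1).resolve_left (by norm_num))
  have hy : ∀ x v c i, x ∈ Q e a1 v → (T e a0 a1 (x, c) i = a1 ↔ (i = v ∨ (i = v + e ∧ c i = true))) :=
    fun x v c i hx => by
      have h1 := hx i
      have h2 := hx (i + -e)
      rw [g, neg_add_cancel_right] at h2
      rw [T_eq h01, h1]
      simp only
      rw [← and_assoc, ne_eq] 
      rw [ne_eq] at h2
      rw [h2]
      constructor
      · rintro (h | ⟨h, h'⟩)
        · exact Or.inl h
        · exact Or.inr ⟨by rw [← h]; simp, h'⟩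
      · rintro (h | ⟨h, h'⟩)
        · exact Or.inl h
        · exact Or.inr ⟨by rw [h]; simp, h'⟩
  have hdis : Disjoint (Q (A := A) e a1 w ×ˢ {c : (Fin d → ℤ) → Bool | c (w + e) = false})
      (Q e a1 (w - e) ×ˢ {c | c w = true}) := by
    rw [Set.disjoint_left]
    rintro ⟨x, c⟩ ⟨h1, _⟩ ⟨h2, _⟩
    have h3 := (h2 w).1 ((h1 w).2 rfl)
    exact he (sub_eq_self.1 h3.symm)
  have hmc : ∀ (i : Fin d → ℤ) (y : Bool), MeasurableSet {c : (Fin d → ℤ) → Bool | c i = y} :=
    fun i y => by
      rw [show {c : (Fin d → ℤ) → Bool | c i = y} = (fun c : (Fin d → ℤ) → Bool => c i) ⁻¹' {y} by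
        ext c; simp]
      exact measurable_pi_apply i (.singleton y)
  rw [Φ, ProbabilityMeasure.coe_mk, map_measureReal_apply (T_meas e a0 a1) (Q_meas w)]
  refine le_trans (le_of_eq ?_) (measureReal_mono (s₁ := (Q e a1 w ×ˢ {c | c (w + e) = false}) ∪
    (Q e a1 (w - e) ×ˢ {c | c w = true})) ?_ (measure_ne_top _ _))
  · rw [measureReal_union hdis ((Q_meas _).prod (hmc _ _)), measureReal_prod_prod,
      measureReal_prod_prod, coin, coin]
    ring
  · rintro ⟨x, c⟩ (⟨h1, h2⟩ | ⟨h1, h2⟩) i
    · simp only [mem_ofPred_eq] at h1 h2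
      rw [g, hy x w c i h1, ne_eq, hy x w c (i + e) h1]
      constructor
      · rintro ⟨h | ⟨rfl, h⟩, _⟩
        · exact h
        · rw [h2] at h; simp at h
      · rintro rfl
        refine ⟨Or.inl rfl, ?_⟩
        rintro (h | ⟨_, h⟩)
        · exact hne h
        · rw [h2] at h; simp at h
    · simp only [mem_ofPred_eq] at h1 h2
      rw [g, hy x (w - e) c i h1, ne_eq, hy x (w - e) c (i + e) h1, sub_add_cancel]
      constructor
      · rintro ⟨h | ⟨h, _⟩, h3⟩
        · exact absurd (Or.inr ⟨by rw [h]; simp, by rw [h]; simpa using h2⟩) h3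
        · exact h
      · rintro rfl
        refine ⟨Or.inr ⟨rfl, h2⟩, ?_⟩
        rintro (h | ⟨h, _⟩)
        · exact hne2 h
        · exact hne h

lemma pascal (t : ℕ) (m : ℕ → ℝ) : ∑ k ∈ Finset.range (t + 2), ((t + 1).choose k : ℝ) * m k =
    ∑ k ∈ Finset.range (t + 1), (t.choose k : ℝ) * (m k + m (k + 1)) := by
  have h1 : ∑ k ∈ Finset.range (t + 1), (t.choose k : ℝ) * m k =
      ∑ k ∈ Finset.range (t + 1), (t.choose (k + 1) : ℝ) * m (k + 1) + m 0 := by
    have h2 := Finset.sum_range_succ (fun k => (t.choose k : ℝ) * m k) (t + 1)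
    have h3 := Finset.sum_range_succ' (fun k => (t.choose k : ℝ) * m k) (t + 1)
    simp only [Nat.choose_succ_self, Nat.cast_zero, zero_mul, add_zero] at h2
    rw [← h2, h3]
    simp
  rw [Finset.sum_range_succ']
  simp only [mul_add, Finset.sum_add_distrib, h1]
  simp only [Nat.choose_succ_succ', Nat.cast_add, add_mul, Finset.sum_add_distrib,
    Nat.choose_zero_right, Nat.cast_one, one_mul]
  ring

lemma binom (he : e ≠ 0) (h01 : a0 ≠ a1) (t : ℕ) (μ : ProbabilityMeasure (Config d A))
    (w : Fin d → ℤ) :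
    (∑ k ∈ Finset.range (t + 1), (t.choose k : ℝ) *
      (μ : Measure (Config d A)).real (Q e a1 (w - k • e))) / 2 ^ t ≤
      ((Φ e a0 a1)^[t] μ : Measure (Config d A)).real (Q e a1 w) := by
  induction t generalizing μ with
  | zero => simp
  | succ t ih =>
    rw [Function.iterate_succ_apply]
    refine le_trans (le_of_eq ?_) (((div_le_div_of_nonneg_right (Finset.sum_le_sum fun k _ =>
      mul_le_mul_of_nonneg_left (low he h01 μ (w - k • e)) (by positivity)) (by positivity))).trans
        (ih (Φ e a0 a1 μ)))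
    rw [pascal t fun k => (μ : Measure (Config d A)).real (Q e a1 (w - k • e)), pow_succ,
      div_mul_eq_div_div_swap, Finset.sum_div]
    congr 1
    refine Finset.sum_congr rfl fun k _ => ?_
    rw [show w - (k + 1) • e = w - k • e - e by module, mul_div_assoc]

variable (a0 a1) in
open scoped Classical in
/-- the configuration with a single one, at `v` -/
noncomputable def single (v : Fin d → ℤ) : Config d A := fun i => if i = v then a1 else a0

omit [Fintype A] [MeasurableSpace A] [DiscreteMeasurableSpace A] in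
lemma single_mem (he : e ≠ 0) (h01 : a0 ≠ a1) (v : Fin d → ℤ) : single a0 a1 v ∈ Q e a1 v := by
  intro i
  simp only [single, g]
  constructor
  · rintro ⟨h, _⟩
    by_contra h2
    rw [if_neg h2] at h
    exact h01 h
  · rintro rfl
    rw [if_pos rfl, if_neg (fun h => he (by simpa using h))]
    exact ⟨rfl, h01⟩

/-- the central binomial probability -/
noncomputable def q (s : ℕ) : ℝ := ((2 * s).choose s : ℝ) / 4 ^ s

lemma q_le_choose (t : ℕ) : q t ≤ (t.choose (t / 2) : ℝ) / 2 ^ t := by
  have h2 : ((2 * t).choose t : ℝ) ≤ t.choose (t / 2) * 2 ^ t := by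
    have h3 : (2 * t).choose t ≤ t.choose (t / 2) * 2 ^ t := by
      rw [← Nat.sum_range_choose_sq, ← Nat.sum_range_choose, Finset.mul_sum]
      refine Finset.sum_le_sum fun k _ => ?_
      rw [sq]
      exact Nat.mul_le_mul_right _ (Nat.choose_le_middle k t)
    exact_mod_cast h3
  rw [q, show (4 : ℝ) ^ t = 2 ^ t * 2 ^ t by rw [← mul_pow]; norm_num, div_le_div_iff₀ (by positivity)
    (by positivity)]
  have h4 : (0 : ℝ) < 2 ^ t := by positivity
  nlinarith [mul_le_mul_of_nonneg_right h2 h4.le]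

lemma low_q (he : e ≠ 0) (h01 : a0 ≠ a1) (t : ℕ) : ∃ μ : ProbabilityMeasure (Config d A),
    q t ≤ ((Φ e a0 a1)^[t] μ : Measure (Config d A)).real (Q e a1 0) := by
  refine ⟨diracProba (single a0 a1 (0 - (t / 2) • e)), (q_le_choose t).trans
    (le_trans ?_ (binom he h01 t _ 0))⟩
  refine div_le_div_of_nonneg_right ?_ (by positivity)
  have h1 : ((diracProba (single a0 a1 (0 - (t / 2) • e)) : ProbabilityMeasure (Config d A)) :
      Measure (Config d A)).real (Q e a1 (0 - (t / 2) • e)) = 1 := by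
    simp only [diracProba, ProbabilityMeasure.coe_mk, Measure.real]
    rw [Measure.dirac_apply_of_mem (single_mem he h01 _), ENNReal.toReal_one]
  have h2 : ∀ k : ℕ, 0 ≤ ((diracProba (single a0 a1 (0 - (t / 2) • e)) :
      ProbabilityMeasure (Config d A)) : Measure (Config d A)).real (Q e a1 (0 - k • e)) :=
    fun k => measureReal_nonneg
  generalize ((diracProba (single a0 a1 (0 - (t / 2) • e)) : ProbabilityMeasure (Config d A)) :
      Measure (Config d A)) = ν at h1 h2 ⊢
  have h3 := Finset.single_le_sum (s := Finset.range (t + 1)) (f := fun k : ℕ => (t.choose k : ℝ) *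
    ν.real (Q e a1 (0 - k • e))) (fun k _ => mul_nonneg (Nat.cast_nonneg _) (h2 k))
      (Finset.mem_range.2 (by omega : t / 2 < t + 1))
  simp only [h1, mul_one] at h3
  exact h3

lemma q_succ (s : ℕ) : q (s + 1) * (2 * s + 2) = q s * (2 * s + 1) := by
  have h := Nat.succ_mul_centralBinom_succ s
  have h1 : ((s : ℝ) + 1) * ((2 * (s + 1)).choose (s + 1)) = 2 * (2 * s + 1) * ((2 * s).choose s) := by
    exact_mod_cast h
  unfold q
  rw [pow_succ]
  field_simp
  linarith

lemma q_pos (s : ℕ) : 0 < q s := by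
  unfold q
  have : 0 < (2 * s).choose s := Nat.choose_pos (by omega)
  positivity

lemma q_le (s : ℕ) : q s ≤ 1 / √(2 * s + 1) := by
  have h : q s ^ 2 * (2 * s + 1) ≤ 1 := by
    induction s with
    | zero => simp [q]
    | succ s ih =>
      have h1 := q_succ s
      have h2 : q (s + 1) = q s * (2 * s + 1) / (2 * s + 2) := by
        rw [eq_div_iff (by positivity), h1]
      rw [h2]
      push_cast
      rw [div_pow, div_mul_eq_mul_div, div_le_one (by positivity)]
      have h3 : (q s * (2 * s + 1)) ^ 2 * (2 * ((s : ℝ) + 1) + 1) =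
        (q s ^ 2 * (2 * s + 1)) * ((2 * s + 1) * (2 * s + 3)) := by ring
      rw [h3]
      have h4 : (0 : ℝ) ≤ (2 * s + 1) * (2 * s + 3) := by positivity
      nlinarith [mul_le_mul_of_nonneg_right ih h4]
  rw [le_div_iff₀ (by positivity)]
  refine (sq_le_one_iff₀ (mul_nonneg (q_pos s).le (Real.sqrt_nonneg _))).1 ?_
  rw [mul_pow, Real.sq_sqrt (by positivity)]
  exact h

lemma le_q (s : ℕ) (hs : 1 ≤ s) : 1 / (2 * √s) ≤ q s := by
  have h : 1 ≤ q s ^ 2 * (4 * s) := by
    induction s, hs using Nat.le_induction with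
    | base => norm_num [q]
    | succ s hs ih =>
      have h1 := q_succ s
      have h2 : q (s + 1) = q s * (2 * s + 1) / (2 * s + 2) := by
        rw [eq_div_iff (by positivity), h1]
      rw [h2]
      push_cast
      rw [div_pow, div_mul_eq_mul_div, one_le_div (by positivity)]
      have h3 : (0 : ℝ) ≤ q s ^ 2 := by positivity
      nlinarith [mul_le_mul_of_nonneg_right ih (by positivity : (0 : ℝ) ≤ (s + 1) * (s + 1))]
  have h0 : (0 : ℝ) < s := by exact_mod_cast hs
  rw [div_le_iff₀ (by positivity)]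
  refine (one_le_sq_iff₀ (mul_nonneg (q_pos s).le (by positivity))).1 ?_
  rw [mul_pow, mul_pow, Real.sq_sqrt h0.le]
  linarith

lemma weights : HasSum (fun k : ℕ => 1 / (((k : ℝ) + 1) * (k + 2))) 1 := by
  rw [hasSum_iff_tendsto_nat_of_nonneg (fun k => by positivity)]
  have h : ∀ n : ℕ, ∑ k ∈ Finset.range n, 1 / (((k : ℝ) + 1) * (k + 2)) = 1 - 1 / ((n : ℝ) + 1) :=
    fun n => by
      induction n with
      | zero => simp
      | succ n ih =>
        rw [Finset.sum_range_succ, ih]
        push_cast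
        field_simp
        ring
  simp only [h]
  simpa using tendsto_one_div_add_atTop_nhds_zero_nat.const_sub (1 : ℝ)

/-- the law of the position of a single particle -/
noncomputable def p : PMF ℕ := ⟨fun k => ENNReal.ofReal (1 / (((k : ℝ) + 1) * (k + 2))), by
  refine ENNReal.summable.hasSum_iff.2 ?_
  rw [← ENNReal.ofReal_tsum_of_nonneg (fun k => by positivity) weights.summable, weights.tsum_eq,
    ENNReal.ofReal_one]⟩

lemma low_p (he : e ≠ 0) (h01 : a0 ≠ a1) : ∃ μ : ProbabilityMeasure (Config d A), ∀ t : ℕ,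
    1 / (((t : ℝ) + 1) * (t + 2)) ≤
      ((Φ e a0 a1)^[t] μ : Measure (Config d A)).real (Q e a1 0) := by
  have hf : Measurable fun n : ℕ => (single a0 a1 (0 - n • e) : Config d A) := .of_discrete
  refine ⟨⟨p.toMeasure.map fun n => single a0 a1 (0 - n • e),
    Measure.isProbabilityMeasure_map hf.aemeasurable⟩, fun t => le_trans ?_ (binom he h01 t _ 0)⟩
  have h1 : ∀ k : ℕ, 1 / (((k : ℝ) + 1) * (k + 2)) ≤
      (p.toMeasure.map fun n => (single a0 a1 (0 - n • e) : Config d A)).real
        (Q e a1 (0 - k • e)) := fun k => by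
    rw [map_measureReal_apply hf (Q_meas _)]
    refine le_trans ?_ (measureReal_mono (s₁ := {k}) (fun n hn => ?_) (measure_ne_top _ _))
    · rw [Measure.real, PMF.toMeasure_apply_singleton _ _ (.singleton _)]
      simp only [p, DFunLike.coe]
      rw [ENNReal.toReal_ofReal (by positivity)]
    · rw [mem_singleton_iff.1 hn]
      exact single_mem he h01 _
  simp only [ProbabilityMeasure.coe_mk]
  rw [le_div_iff₀ (by positivity)]
  have h2 : ((∑ k ∈ Finset.range (t + 1), t.choose k : ℕ) : ℝ) = 2 ^ t := by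
    rw [Nat.sum_range_choose]; norm_num
  rw [← h2, Nat.cast_sum, Finset.mul_sum]
  refine Finset.sum_le_sum fun k hk => ?_
  rw [mul_comm]
  refine mul_le_mul_of_nonneg_left (le_trans ?_ (h1 k)) (Nat.cast_nonneg _)
  have h3 : (k : ℝ) ≤ t := by
    have := Finset.mem_range.1 hk
    exact_mod_cast (by omega : k ≤ t)
  refine one_div_le_one_div_of_le (by positivity) ?_
  have h4 : (0 : ℝ) ≤ k := Nat.cast_nonneg _
  nlinarith

end core

section main
variable {d : ℕ} {A : Type} [Fintype A] [TopologicalSpace A] [DiscreteTopology A]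
  [MeasurableSpace A] [DiscreteMeasurableSpace A]

lemma conv {π : ProbabilityMeasure (Config d A)} {ν : ℕ → ProbabilityMeasure (Config d A)}
    (h : ∀ D w, Tendsto (fun t => (ν t : Measure (Config d A)).real (cyl D w)) atTop
      (𝓝 ((π : Measure (Config d A)).real (cyl D w)))) : Tendsto ν atTop (𝓝 π) := by
  have cyl_meas : ∀ (D : Finset (Fin d → ℤ)) (w : Config d A), MeasurableSet (cyl D w) :=
    fun D w => by
      have : cyl D w = ⋂ i ∈ D, (fun x : Config d A => x i) ⁻¹' {w i} := by ext x; simp [cyl]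
      rw [this]
      exact Finset.measurableSet_biInter _ fun i _ => measurable_pi_apply i (.of_discrete)
  refine IsPiSystem.tendsto_probabilityMeasure_of_tendsto_of_mem (S := {s | ∃ D w, s = cyl D w})
    ?_ ?_ (fun u hu x hx => ?_) ?_
  · rintro _ ⟨D, w, rfl⟩ _ ⟨D', w', rfl⟩ ⟨z, h1, h2⟩
    refine ⟨D ∪ D', z, Set.ext fun x => ⟨fun hx i hi => ?_, fun hx => ⟨fun i hi =>
      (hx i (by simp [hi])).trans (h1 i hi), fun i hi => (hx i (by simp [hi])).trans (h2 i hi)⟩⟩⟩
    rcases Finset.mem_union.mp hi with hi | hi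
    exacts [(hx.1 i hi).trans (h1 i hi).symm, (hx.2 i hi).trans (h2 i hi).symm]
  · rintro _ ⟨D, w, rfl⟩
    exact cyl_meas D w
  · obtain ⟨I, v, h1, h2⟩ := isOpen_pi_iff.mp hu x hx
    exact ⟨_, ⟨I, x, rfl⟩, set_pi_mem_nhds I.finite_toSet (s := fun i => {x i}) fun _ _ => by simp,
      fun y hy => h2 fun i hi => hy i hi ▸ (h1 i hi).2⟩
  · rintro _ ⟨D, w, rfl⟩
    exact NNReal.tendsto_coe.mp (h D w)

/-- `π` is the only invariant law, and from every initial law the process converges weakly to it -/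
def PCA.ErgodicWith (P : PCA d A) (π : ProbabilityMeasure (Config d A)) : Prop :=
  P.step π = π ∧ (∀ ν : ProbabilityMeasure (Config d A), P.step ν = ν → ν = π) ∧
    ∀ μ : ProbabilityMeasure (Config d A), ∃ ν : ℕ → ProbabilityMeasure (Config d A),
      (∀ t, (ν t : Measure (Config d A)) = P.step^[t] μ) ∧ Tendsto ν atTop (𝓝 π)

/-- the deviation at time `t` on a cylinder, from the initial law `μ` -/
noncomputable def PCA.dev (P : PCA d A) (π μ : ProbabilityMeasure (Config d A))
    (D : Finset (Fin d → ℤ)) (w : Config d A) (t : ℕ) : ℝ :=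
  |(P.step^[t] (μ : Measure (Config d A))).real (cyl D w) -
    (π : Measure (Config d A)).real (cyl D w)|

/-- uniformly ergodic -/
def PCA.UniformlyErgodic (P : PCA d A) : Prop :=
  ∃ π, P.ErgodicWith π ∧ ∀ D w, ∀ ε : ℝ, 0 < ε → ∃ t₀, ∀ t, t₀ ≤ t → ∀ μ, P.dev π μ D w t ≤ ε

/-- exponentially ergodic -/
def PCA.ExponentiallyErgodic (P : PCA d A) : Prop :=
  ∃ π, P.ErgodicWith π ∧ ∀ D w, ∃ K γ : ℝ, 0 ≤ γ ∧ γ < 1 ∧ ∀ μ t, P.dev π μ D w t ≤ K * γ ^ t

/-- exponentially ergodic in the weaker sense: the constants may depend on the initial law -/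
def PCA.WeaklyExponentiallyErgodic (P : PCA d A) : Prop :=
  ∃ π, P.ErgodicWith π ∧ ∀ D w μ, ∃ K γ : ℝ, 0 ≤ γ ∧ γ < 1 ∧ ∀ t, P.dev π μ D w t ≤ K * γ ^ t

open scoped Classical in
/-- the automaton -/
noncomputable def aut (e : Fin d → ℤ) (a0 a1 : A) : PCA d A where
  nbhd := {-e, 0, e}
  rule u := (PMF.uniformOfFintype Bool).map fun c =>
    if (u ⟨0, by simp⟩ = a1 ∧ u ⟨e, by simp⟩ ≠ a1) ∨
      (u ⟨-e, by simp⟩ = a1 ∧ u ⟨0, by simp⟩ ≠ a1 ∧ c = true) then a1 else a0

omit [Fintype A] [DiscreteMeasurableSpace A] [TopologicalSpace A] [DiscreteTopology A] in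
lemma next_eq (e : Fin d → ℤ) (a0 a1 : A) (x : Config d A) :
    (aut e a0 a1).next x = (C d).map fun c => T e a0 a1 (x, c) := by
  classical
  unfold PCA.next aut
  simp only [← PMF.toMeasure_map _ _ (measurable_of_finite _), add_zero]
  exact (Measure.infinitePi_map_pi _ (f := fun i c =>
    if (x i = a1 ∧ x (i + e) ≠ a1) ∨ (x (i + -e) = a1 ∧ x i ≠ a1 ∧ c = true) then a1 else a0)
      fun _ => measurable_of_finite _).symm

omit [TopologicalSpace A] [DiscreteTopology A] in
lemma next_apply (e : Fin d → ℤ) (a0 a1 : A) {s : Set (Config d A)} (hs : MeasurableSet s)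
    (x : Config d A) :
    (aut e a0 a1).next x s = (C d) (Prod.mk x ⁻¹' (T e a0 a1 ⁻¹' s)) := by
  rw [next_eq]
  exact Measure.map_apply ((T_meas e a0 a1).comp measurable_prodMk_left) hs

omit [TopologicalSpace A] [DiscreteTopology A] in
lemma next_meas (e : Fin d → ℤ) (a0 a1 : A) : Measurable (aut e a0 a1).next :=
  Measure.measurable_of_measurable_coe _ fun s hs => by
    simp only [next_apply e a0 a1 hs]
    exact measurable_measure_prodMk_left ((T_meas e a0 a1) hs)

omit [TopologicalSpace A] [DiscreteTopology A] in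
lemma step_eq (e : Fin d → ℤ) (a0 a1 : A) (μ : ProbabilityMeasure (Config d A)) :
    (aut e a0 a1).step μ = Φ e a0 a1 μ := by
  refine Measure.ext fun s hs => ?_
  rw [PCA.step, Measure.bind_apply hs (next_meas e a0 a1).aemeasurable, Φ,
    ProbabilityMeasure.coe_mk, Measure.map_apply (T_meas e a0 a1) hs,
    Measure.prod_apply ((T_meas e a0 a1) hs)]
  simp only [next_apply e a0 a1 hs]

omit [TopologicalSpace A] [DiscreteTopology A] in
lemma iter_eq (e : Fin d → ℤ) (a0 a1 : A) (t : ℕ) (μ : ProbabilityMeasure (Config d A)) :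
    (aut e a0 a1).step^[t] μ = ((Φ e a0 a1)^[t] μ : Measure (Config d A)) := by
  induction t with
  | zero => rfl
  | succ t ih => rw [Function.iterate_succ_apply', Function.iterate_succ_apply', ih, step_eq]

/-- For every dimension `d ≥ 1` and every finite alphabet `A` with at least two symbols there is a
probabilistic cellular automaton on `ℤ^d` with alphabet `A` and a neighbourhood of three cells that
is uniformly ergodic but not exponentially ergodic, not even in the weaker sense. The largest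
deviation at time `t`, over all initial laws, is at most `4 |D| q t` on a cylinder with base `D`, and
at least `q t` on one fixed cylinder with base `{0}`, where `q t = C(2t, t) / 4^t` lies between
`1 / (2 √t)` and `1 / √(2t + 1)`; and for one fixed initial law the deviation on this cylinder is at
least `1 / ((t + 1) (t + 2))` at every time `t`. -/
theorem result (d : ℕ) (hd : 0 < d) (A : Type) [Fintype A] [TopologicalSpace A] [DiscreteTopology A]
    [MeasurableSpace A] [DiscreteMeasurableSpace A] (hA : 2 ≤ Fintype.card A) :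
    ∃ (P : PCA d A) (π : ProbabilityMeasure (Config d A)) (a : A),
      P.nbhd.card = 3 ∧ Measurable P.next ∧ P.ErgodicWith π ∧
      P.UniformlyErgodic ∧ ¬ P.ExponentiallyErgodic ∧ ¬ P.WeaklyExponentiallyErgodic ∧
      (∀ t, 1 ≤ t → ∀ μ D w, P.dev π μ D w t ≤ D.card * (4 * q t)) ∧
      (∀ t, ∃ μ, q t ≤ P.dev π μ {0} (fun _ => a) t) ∧
      (∃ μ, ∀ t : ℕ, 1 / (((t : ℝ) + 1) * (t + 2)) ≤ P.dev π μ {0} (fun _ => a) t) ∧
      ∀ t : ℕ, 1 ≤ t → 1 / (2 * √t) ≤ q t ∧ q t ≤ 1 / √(2 * t + 1) := by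
  obtain ⟨a0, a1, h01⟩ := Fintype.exists_pair_of_one_lt_card (by omega : 1 < Fintype.card A)
  set e : Fin d → ℤ := Pi.single ⟨0, hd⟩ 1 with he'
  have he : e ≠ 0 := fun h => by
    have := congrFun h ⟨0, hd⟩
    simp [he'] at this
  have hU : ∀ t, U t 2 ≤ 4 * q (t + 1) := fun t => by
    have h1 : U t 2 = ((2 * (t + 1)).choose (t + 2) : ℝ) / 4 ^ t := by
      rw [U, Finset.sum_range_succ, Finset.sum_range_one, show 2 * (t + 1) = 2 * t + 1 + 1 by ring,
        Nat.choose_succ_succ' (2 * t + 1) (t + 1)]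
      push_cast
      rfl
    have h2 : (2 * (t + 1)).choose (t + 2) ≤ (2 * (t + 1)).choose (t + 1) :=
      Nat.choose_le_centralBinom (t + 2) (t + 1)
    have h3 : ((2 * (t + 1)).choose (t + 2) : ℝ) ≤ (2 * (t + 1)).choose (t + 1) := by
      exact_mod_cast h2
    rw [h1, q, pow_succ, div_le_iff₀ (by positivity)]
    have h4 : (0 : ℝ) < 4 ^ t := by positivity
    rw [mul_comm ((4 : ℝ) ^ t) 4, ← mul_div_assoc, mul_div_mul_left _ _ (by norm_num),
      div_mul_cancel₀ _ h4.ne']
    exact h3
  set P : PCA d A := aut e a0 a1 with hP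
  set π : ProbabilityMeasure (Config d A) := diracProba fun _ => a0 with hπ
  have hdev : ∀ t, 1 ≤ t → ∀ μ D w, P.dev π μ D w t ≤ D.card * (4 * q t) := fun t ht μ D w => by
    obtain ⟨t, rfl⟩ : ∃ s, t = s + 1 := ⟨t - 1, by omega⟩
    rw [PCA.dev, hP, iter_eq]
    exact (close he h01 μ t D w).trans (mul_le_mul_of_nonneg_left (hU t) (Nat.cast_nonneg _))
  have hq : Tendsto q atTop (𝓝 0) := by
    have h1 : Tendsto (fun t : ℕ => 1 / √(2 * (t : ℝ) + 1)) atTop (𝓝 0) := by
      have h2 : Tendsto (fun t : ℕ => 2 * (t : ℝ) + 1) atTop atTop :=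
        tendsto_atTop_add_const_right _ _ (tendsto_natCast_atTop_atTop.const_mul_atTop two_pos)
      simp only [one_div]
      exact (Real.tendsto_sqrt_atTop.comp h2).inv_tendsto_atTop
    exact squeeze_zero (fun t => (q_pos t).le) q_le h1
  have hu : ∀ D w, ∀ ε : ℝ, 0 < ε → ∃ t₀, ∀ t, t₀ ≤ t → ∀ μ, P.dev π μ D w t ≤ ε :=
    fun D w ε hε => by
      have h := (hq.const_mul 4).const_mul (D.card : ℝ)
      rw [mul_zero, mul_zero] at h
      obtain ⟨t₀, h1⟩ := eventually_atTop.mp (h.eventually (gt_mem_nhds hε))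
      exact ⟨t₀ + 1, fun t ht μ => (hdev t (by omega) μ D w).trans (h1 t (by omega)).le⟩
  have hlim : ∀ μ, Tendsto (fun t => (Φ e a0 a1)^[t] μ) atTop (𝓝 π) := fun μ => conv fun D w =>
    Metric.tendsto_atTop.mpr fun ε hε => (hu D w (ε / 2) (by positivity)).imp fun _ h t ht => by
      have h1 := h t ht μ
      rw [PCA.dev, hP, iter_eq] at h1
      exact h1.trans_lt (by linarith)
  have hfix : Φ e a0 a1 π = π := by
    have hT : ∀ c, T e a0 a1 ((fun _ => a0 : Config d A), c) = fun _ => a0 := fun c => by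
      funext i
      simp [T, h01]
    refine Subtype.ext ?_
    simp only [Φ, hπ, diracProba, ProbabilityMeasure.coe_mk]
    rw [Measure.dirac_prod, Measure.map_map (T_meas e a0 a1) measurable_prodMk_left]
    rw [show T e a0 a1 ∘ Prod.mk (fun _ => a0 : Config d A) = fun _ => fun _ => a0 from
      funext hT, Measure.map_const]
    simp
  have herg : P.ErgodicWith π := by
    refine ⟨?_, fun ν hν => ?_, fun μ => ⟨fun t => (Φ e a0 a1)^[t] μ, fun t =>
      (iter_eq e a0 a1 t μ).symm, hlim μ⟩⟩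
    · rw [hP, step_eq, hfix]
    · have h1 : Φ e a0 a1 ν = ν := Subtype.ext ((step_eq e a0 a1 ν).symm.trans hν)
      exact tendsto_nhds_unique (by
        simp only [Function.iterate_fixed h1]; exact tendsto_const_nhds) (hlim ν)
  have huniq : ∀ π', P.ErgodicWith π' → π' = π := fun π' h => herg.2.1 π' h.1
  have hQ : ∀ μ t, ((Φ e a0 a1)^[t] μ : Measure (Config d A)).real (Q e a1 0) ≤
      P.dev π μ {0} (fun _ => a1) t := fun μ t => by
    have hm : MeasurableSet (cyl {0} (fun _ => a1) : Set (Config d A)) := by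
      have : (cyl {0} (fun _ => a1) : Set (Config d A)) = (fun x : Config d A => x 0) ⁻¹' {a1} := by
        ext x; simp [cyl]
      rw [this]
      exact measurable_pi_apply 0 (.of_discrete)
    have h0 : (π : Measure (Config d A)).real (cyl {0} (fun _ => a1)) = 0 := by
      simp only [hπ, diracProba, ProbabilityMeasure.coe_mk, Measure.real]
      rw [Measure.dirac_apply' _ hm, indicator_of_notMem (by simp [cyl, h01]), ENNReal.toReal_zero]
    rw [PCA.dev, hP, iter_eq, h0, sub_zero, abs_of_nonneg measureReal_nonneg]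
    refine measureReal_mono (fun x hx i hi => ?_) (measure_ne_top _ _)
    rw [Finset.mem_singleton] at hi
    rw [hi]
    exact ((hx 0).2 rfl).1
  obtain ⟨μ₀, hμ₀⟩ := low_p (A := A) he h01
  have hlow : ∀ t : ℕ, 1 / (((t : ℝ) + 1) * (t + 2)) ≤ P.dev π μ₀ {0} (fun _ => a1) t :=
    fun t => (hμ₀ t).trans (hQ μ₀ t)
  have hno : ¬ ∃ K γ : ℝ, 0 ≤ γ ∧ γ < 1 ∧ ∀ t, P.dev π μ₀ {0} (fun _ => a1) t ≤ K * γ ^ t := by
    rintro ⟨K, γ, h0, h1, h⟩
    have h2 := (tendsto_pow_const_mul_const_pow_of_abs_lt_one 2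
      (by rwa [abs_of_nonneg h0] : |γ| < 1)).const_mul (6 * K)
    rw [mul_zero] at h2
    obtain ⟨t, ht, ht1⟩ := ((h2.eventually (gt_mem_nhds one_pos)).and (eventually_ge_atTop 1)).exists
    have h3 := (hlow t).trans (h t)
    rw [div_le_iff₀ (by positivity)] at h3
    have h4 : (1 : ℝ) ≤ t := by exact_mod_cast ht1
    have h5 : 0 ≤ K * γ ^ t := le_trans (abs_nonneg _) (h t)
    have h6 : ((t : ℝ) + 1) * (t + 2) ≤ 6 * t ^ 2 := by nlinarith
    nlinarith [mul_le_mul_of_nonneg_left h6 h5]
  refine ⟨P, π, a1, ?_, next_meas e a0 a1, herg, ⟨π, herg, hu⟩, ?_, ?_, hdev, fun t => ?_,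
    ⟨μ₀, hlow⟩, fun t ht => ⟨le_q t ht, q_le t⟩⟩
  · have h1 : -e ≠ 0 := neg_ne_zero.2 he
    have h2 : -e ≠ e := fun h => by
      have h3 := congrFun h ⟨0, hd⟩
      simp [he'] at h3
    rw [hP, aut, Finset.card_insert_of_notMem (by simp [h1, h2]), Finset.card_pair he.symm]
  · rintro ⟨π', h1, h2⟩
    rw [huniq π' h1] at h2
    obtain ⟨K, γ, h3, h4, h5⟩ := h2 {0} fun _ => a1
    exact hno ⟨K, γ, h3, h4, h5 μ₀⟩
  · rintro ⟨π', h1, h2⟩
    rw [huniq π' h1] at h2
    exact hno (h2 {0} (fun _ => a1) μ₀)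
  · obtain ⟨μ, h⟩ := low_q (A := A) he h01 t
    exact ⟨μ, h.trans (hQ μ t)⟩

end main

end Pool.Agent.Results.MP_37af32_pr.EveryAlphabet
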